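import Pool.Agent.Helper853.LelongNumber

open MeasureTheory

namespace Pool.Agent.Results.MP_50bf8a_an.IrrationalGreen

open Pool.Agent.Helper853

/-- Sanity check of the normalisations: the Monge-Ampere measure `ω^n` of the zero function has
total mass `1`. -/
theorem smoothMA_zero_univ (n : ℕ) : smoothMA (fun _ : CP n => (0 : ℝ)) Set.univ = 1 := by
  unfold smoothMA
  rw [Measure.map_apply (continuous_chart 0).measurable MeasurableSet.univ, Set.preimage_univ,
    withDensity_apply _ MeasurableSet.univ, Measure.restrict_univ]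
  simp only [zero_add]
  exact lintegral_maDensity_fsPot

/-- Every number of `(0, 1]` is the Lelong number of an `ω`-psh Green function of `CP^n`,
for every `n ≥ 2`. -/
theorem exists_green (n : ℕ) (hn : 2 ≤ n) (ν : ℝ) (h0 : 0 < ν) (h1 : ν ≤ 1) :
    ∃ (a : CP n) (G : CP n → EReal), HasMA G (Measure.dirac a) ∧ lelong G a = ν := by
  obtain ⟨m, rfl⟩ : ∃ m, n = m + 2 := ⟨n - 2, by omega⟩
  exact ⟨pole m, GG m ν, hasMA_GG h0 h1, lelong_GG h0 h1⟩

/-- For every `n ≥ 2` there are a point `a` of `CP^n` and an `ω`-psh Green function `G` with pole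
at `a` (a function of `DMA(CP^n, ω)` whose Monge-Ampere measure is the Dirac mass at `a`) whose
Lelong number at `a` is irrational. -/
theorem result : ∀ n : ℕ, 2 ≤ n → ∃ (a : CP n) (G : CP n → EReal),
    HasMA G (Measure.dirac a) ∧ Irrational (lelong G a) := by
  intro n hn
  have hs : 1 < Real.sqrt 2 := by
    rw [Real.lt_sqrt zero_le_one]
    norm_num
  have hs2 : Real.sqrt 2 ≤ 2 := by
    rw [Real.sqrt_le_left (by norm_num)]
    norm_num
  obtain ⟨a, G, hG, hl⟩ := exists_green n hn (Real.sqrt 2 - 1) (by linarith) (by linarith)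
  refine ⟨a, G, hG, ?_⟩
  rw [hl]
  have := irrational_sqrt_two.sub_natCast 1
  simpa using this

end Pool.Agent.Results.MP_50bf8a_an.IrrationalGreen
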